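import Pool.Agent.Lib.MP_4fbe7c_an.ND.Base

/-! Project ND, module NRM: the geometry of the boundary (helper38). -/

set_option autoImplicit false

open Set MeasureTheory Filter Topology

namespace Pool.Agent.Lib.MP_4fbe7c_an.ND.H38

variable {p : ℕ} {Ω : Set (Eu p)} {q : Eu p → ℝ}

/-- The convex case. -/
theorem nrm_convex (h : Dom Ω q) (hc : Convex ℝ Ω) {x y : Eu p} (hx : x ∈ frontier Ω)
    (hy : y ∈ closure Ω) : 0 ≤ inner ℝ (x - y) (gradient q x) := by
  by_contra hcon
  push Not at hcon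
  have hx0 : q x = 0 := h.mem_frontier_iff.mp hx
  have h1 : 0 < inner ℝ (gradient q x) (y - x) := by
    have h2 : inner ℝ (x - y) (gradient q x) = -inner ℝ (gradient q x) (y - x) := by
      rw [real_inner_comm, ← neg_sub y x, inner_neg_right]
    rw [h2] at hcon
    linarith
  have h2 := h.hasDerivAt_line x (y - x) 0
  simp only [zero_smul, add_zero] at h2
  have h3 := h2.hasDerivWithinAt (s := Ioi 0)
  rw [hasDerivWithinAt_iff_tendsto_slope' (by simp)] at h3
  have h4 := h3.eventually_const_lt h1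
  have h5 : ∀ᶠ s in 𝓝[>] (0 : ℝ), s ∈ Ioo (0 : ℝ) 1 := Ioo_mem_nhdsGT one_pos
  obtain ⟨s, hs, hs1⟩ := (h4.and h5).exists
  rw [slope_def_field] at hs
  simp only [zero_smul, add_zero, sub_zero, hx0] at hs
  have h6 : x + s • (y - x) ∈ closure Ω := by
    have h7 := hc.closure (frontier_subset_closure hx) hy
      (by linarith [hs1.2] : (0 : ℝ) ≤ 1 - s) hs1.1.le (by ring)
    have h8 : (1 - s) • x + s • y = x + s • (y - x) := by
      rw [sub_smul, one_smul, smul_sub]
      abel
    rwa [h8] at h7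
  have h7 := h.mem_closure_iff.mp h6
  have h8 : q (x + s • (y - x)) / s ≤ 0 := div_nonpos_of_nonpos_of_nonneg h7 hs1.1.le
  linarith

/-- The general case. -/
theorem nrm_gen (h : Dom Ω q) : ∃ L : ℝ, 0 ≤ L ∧
    ∀ x ∈ frontier Ω, ∀ y ∈ closure Ω, -(L * ‖x - y‖ ^ 2) ≤ inner ℝ (x - y) (gradient q x) := by
  obtain ⟨R, hR⟩ := h.bdd.closure.subset_closedBall 0
  have hg := h.contDiff_gradient
  have hc : Continuous (fderiv ℝ (gradient q)) := hg.continuous_fderiv (by norm_num)
  obtain ⟨C, hC⟩ := (isCompact_closedBall (0 : Eu p) R).exists_bound_of_continuousOn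
    (f := fderiv ℝ (gradient q)) hc.continuousOn
  refine ⟨max C 0, le_max_right _ _, ?_⟩
  intro x hx y hy
  have hx0 : q x = 0 := h.mem_frontier_iff.mp hx
  have hy0 : q y ≤ 0 := h.mem_closure_iff.mp hy
  have hxR := hR (frontier_subset_closure hx)
  have hyR := hR hy
  -- the mean value theorem on the segment
  obtain ⟨ξ, hξ, hξe⟩ := exists_hasDerivAt_eq_slope (fun s : ℝ => q (x + s • (y - x)))
    (fun s => inner ℝ (gradient q (x + s • (y - x))) (y - x)) (zero_lt_one' ℝ)
    (fun s _ => (h.hasDerivAt_line x (y - x) s).continuousAt.continuousWithinAt)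
    (fun s _ => h.hasDerivAt_line x (y - x) s)
  simp only [zero_smul, add_zero, sub_zero, one_smul, div_one, hx0, add_sub_cancel] at hξe
  have hmem : x + ξ • (y - x) ∈ Metric.closedBall (0 : Eu p) R := by
    have h7 := (convex_closedBall (0 : Eu p) R) hxR hyR
      (by linarith [hξ.2] : (0 : ℝ) ≤ 1 - ξ) hξ.1.le (by ring)
    have h8 : (1 - ξ) • x + ξ • y = x + ξ • (y - x) := by
      rw [sub_smul, one_smul, smul_sub]
      abel
    rwa [h8] at h7
  have hlip : ‖gradient q (x + ξ • (y - x)) - gradient q x‖ ≤ C * ‖x + ξ • (y - x) - x‖ :=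
    (convex_closedBall (0 : Eu p) R).norm_image_sub_le_of_norm_fderiv_le
      (fun z _ => (hg.differentiable (by norm_num)) z) hC hxR hmem
  have h1 : ‖x + ξ • (y - x) - x‖ ≤ ‖x - y‖ := by
    rw [add_sub_cancel_left, norm_smul, Real.norm_eq_abs, abs_of_pos hξ.1, norm_sub_rev]
    have := norm_nonneg (x - y)
    nlinarith [hξ.2]
  have h2 : ‖gradient q (x + ξ • (y - x)) - gradient q x‖ ≤ max C 0 * ‖x - y‖ := by
    refine hlip.trans ?_
    calc C * ‖x + ξ • (y - x) - x‖ ≤ max C 0 * ‖x + ξ • (y - x) - x‖ :=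
          mul_le_mul_of_nonneg_right (le_max_left _ _) (norm_nonneg _)
      _ ≤ max C 0 * ‖x - y‖ := mul_le_mul_of_nonneg_left h1 (le_max_right _ _)
  have h3 : |inner ℝ (gradient q (x + ξ • (y - x)) - gradient q x) (y - x)| ≤
      max C 0 * ‖x - y‖ ^ 2 := by
    refine (abs_real_inner_le_norm _ _).trans ?_
    rw [norm_sub_rev y x]
    calc ‖gradient q (x + ξ • (y - x)) - gradient q x‖ * ‖x - y‖ ≤
          (max C 0 * ‖x - y‖) * ‖x - y‖ := mul_le_mul_of_nonneg_right h2 (norm_nonneg _)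
      _ = max C 0 * ‖x - y‖ ^ 2 := by ring
  have h4 := (abs_le.mp h3).1
  rw [inner_sub_left, hξe] at h4
  have h5 : inner ℝ (x - y) (gradient q x) = -inner ℝ (gradient q x) (y - x) := by
    rw [real_inner_comm, ← neg_sub y x, inner_neg_right]
  rw [h5]
  linarith

theorem nrm_st : NrmStatement := by
  intro p Ω q h
  by_cases hc : Convex ℝ Ω
  · refine ⟨0, le_refl 0, fun _ => rfl, ?_⟩
    intro x hx y hy
    rw [zero_mul, neg_zero]
    exact nrm_convex h hc hx hy
  · obtain ⟨L, hL, hb⟩ := nrm_gen h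
    exact ⟨L, hL, fun h1 => absurd h1 hc, hb⟩

end Pool.Agent.Lib.MP_4fbe7c_an.ND.H38
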